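import Pool.Agent.Y773.NV.St2
import Pool.Agent.Y773.IQ.Ray

/-! # Few primitive characters are invariant under the automorphism -/

set_option autoImplicit false

open NumberField

namespace Pool.Agent.Y665.NV

open Pool.Agent.Y773 (TPos)
open Pool.Agent.Y773.NV
open Pool.Agent.Y773.G (IsPrimChar)
open Pool.Agent.Y773.IQ (prim_congr cop_one cop_mul ne_zero_of_cop absNorm_pos')
open Pool.Agent.Y767 (isUnit_mk coprime_of_isUnit)

section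

variable {K : Type} [Field K] [NumberField K]

omit [NumberField K] in
lemma tpos [IsTotallyComplex K] (x : 𝓞 K) : TPos K x := by
  intro σ
  exfalso
  have h := IsTotallyComplex.complexEmbedding_not_isReal (K := K) (Complex.ofRealHom.comp σ)
  apply h
  rw [ComplexEmbedding.isReal_iff]
  ext y
  rw [ComplexEmbedding.conjugate_coe_eq]
  simp

/-- the conductor is stable -/
lemma stable [IsTotallyComplex K] {s : 𝓞 K ≃+* 𝓞 K} (hs : ∀ x, s (s x) = x) {𝔣 : Ideal (𝓞 K)}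
    (htop : 𝔣 ≠ ⊤) {ψ : Ideal (𝓞 K) →*₀ ℂ} (hψ : IsPrimChar K 𝔣 ψ)
    (hinv : ∀ x : 𝓞 K, ψ (Ideal.span {s x}) = ψ (Ideal.span {x})) {y : 𝓞 K} (hy : y ∈ 𝔣) :
    s y ∈ 𝔣 := by
  set 𝔣' : Ideal (𝓞 K) := Ideal.comap (s : 𝓞 K →+* 𝓞 K) 𝔣 with h𝔣'
  have hmem : ∀ z, z ∈ 𝔣' ↔ s z ∈ 𝔣 := fun z => Iff.rfl
  have hle : 𝔣' ≤ 𝔣 := by
    by_contra hcon
    have hne : 𝔣 ⊔ 𝔣' ≠ 𝔣 := fun h1 => hcon (h1 ▸ le_sup_right)
    obtain ⟨x, hx1, -, hx2, hx3⟩ := hψ.prim (𝔣 ⊔ 𝔣') (Ideal.dvd_iff_le.mpr le_sup_left) hne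
    obtain ⟨a, ha, b, hb, hab⟩ := Submodule.mem_sup.mp hx1
    apply hx3
    have hz : x - a = 1 + b := by linear_combination -hab
    have h1 : ψ (Ideal.span {x - a}) = ψ (Ideal.span {x}) := by
      refine prim_congr (fun x => tpos x) hψ htop ?_ hx2
      have : x - a - x = -a := by ring
      rw [this]
      exact neg_mem ha
    rw [← h1, ← hinv (x - a), hz, map_add, map_one]
    have h2 : (1 + s b) - 1 ∈ 𝔣 := by
      rw [add_sub_cancel_left]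
      exact (hmem b).mp hb
    exact hψ.ray _ (ne_zero_of_cop htop (cop_one h2)) h2 (tpos _)
  apply hle
  rw [hmem, hs]
  exact hy

/-- the norm of an additive subgroup generated by a class -/
lemma order_bound (h2 : Module.finrank ℚ K = 2) {𝔣 : Ideal (𝓞 K)} {d : 𝓞 K} (hd : d ≠ 0) {m : ℕ}
    (hm : 0 < m) (h : (m : 𝓞 K) * d ∈ 𝔣) :
    Ideal.absNorm 𝔣 ≤ m ^ 2 * Ideal.absNorm (Ideal.span {d}) := by
  have h1 : Ideal.absNorm 𝔣 ∣ Ideal.absNorm (Ideal.span {(m : 𝓞 K) * d}) := by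
    apply Ideal.absNorm_dvd_absNorm_of_le
    rw [Ideal.span_singleton_le_iff_mem]
    exact h
  have h3 : Ideal.absNorm (Ideal.span {(m : 𝓞 K) * d}) =
      m ^ 2 * Ideal.absNorm (Ideal.span {d}) := by
    rw [← Ideal.span_singleton_mul_span_singleton, map_mul]
    congr 1
    rw [Ideal.absNorm_span_singleton]
    have h4 : Algebra.norm ℤ (m : 𝓞 K) = (m : ℤ) ^ 2 := by
      have h5 := Algebra.norm_algebraMap (S := 𝓞 K) (m : ℤ)
      rw [RingOfIntegers.rank, h2] at h5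
      rw [← h5]
      congr 1
      simp
    rw [h4]
    simp [Int.natAbs_pow]
  rw [h3] at h1
  refine Nat.le_of_dvd ?_ h1
  have h6 : 0 < Ideal.absNorm (Ideal.span {d}) := by
    apply absNorm_pos'
    rw [Ne, Ideal.span_singleton_eq_bot]
    exact hd
  positivity

end

theorem t_inv : St_RST → St_INV := by
  intro hRST K _ _ _ s h2 hs ⟨x₀, hx₀⟩
  set d := s x₀ - x₀ with hd
  have hd0 : d ≠ 0 := sub_ne_zero.mpr hx₀
  refine ⟨Nat.card (ClassGroup (𝓞 K)) * Real.sqrt (Ideal.absNorm (Ideal.span {d}) : ℝ),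
    by positivity, ?_⟩
  intro 𝔣 S hbot htop hS hinv
  have hnm0 : 0 < nm 𝔣 := by
    unfold nm
    exact_mod_cast absNorm_pos' hbot
  rcases S.eq_empty_or_nonempty with rfl | ⟨ψ₀, hψ₀⟩
  · rw [Finset.card_empty, Nat.cast_zero]
    positivity
  have hst : ∀ y, y ∈ 𝔣 → s y ∈ 𝔣 := fun y hy => stable hs htop (hS ψ₀ hψ₀) (hinv ψ₀ hψ₀) hy
  have hfin : Finite (𝓞 K ⧸ 𝔣) := Ideal.finiteQuotientOfFreeOfNeBot 𝔣 hbot
  -- the induced map
  have hst2 : 𝔣 ≤ Ideal.comap (s : 𝓞 K →+* 𝓞 K) 𝔣 := by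
    intro y hy
    rw [Ideal.mem_comap]
    exact hst y hy
  obtain ⟨sR, hsR⟩ : ∃ sR : (𝓞 K ⧸ 𝔣) →+* (𝓞 K ⧸ 𝔣),
      ∀ x, sR (Ideal.Quotient.mk 𝔣 x) = Ideal.Quotient.mk 𝔣 (s x) :=
    ⟨Ideal.quotientMap 𝔣 (s : 𝓞 K →+* 𝓞 K) hst2, fun x => by
      rw [Ideal.quotientMap_mk]; rfl⟩
  set g : (𝓞 K ⧸ 𝔣)ˣ →* (𝓞 K ⧸ 𝔣)ˣ := (Units.map (sR : (𝓞 K ⧸ 𝔣) →* (𝓞 K ⧸ 𝔣))) / MonoidHom.id _
    with hg
  have hgv : ∀ v : (𝓞 K ⧸ 𝔣)ˣ, ((g v : (𝓞 K ⧸ 𝔣)ˣ) : 𝓞 K ⧸ 𝔣) * (v : 𝓞 K ⧸ 𝔣) =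
      sR (v : 𝓞 K ⧸ 𝔣) := by
    intro v
    rw [← Units.val_mul, hg, MonoidHom.div_apply, MonoidHom.id_apply, div_mul_cancel]
    rfl
  have hfu : Finite (𝓞 K ⧸ 𝔣)ˣ := inferInstance
  have hTf : (Set.range g).Finite := Set.toFinite _
  have hcard := hRST K 𝔣 S hTf.toFinset hbot htop hS (by
    intro ψ hψ u hu x hx
    rw [Set.Finite.mem_toFinset] at hu
    obtain ⟨v, rfl⟩ := hu
    obtain ⟨y, hy⟩ := Ideal.Quotient.mk_surjective (v : 𝓞 K ⧸ 𝔣)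
    have h3 := hgv v
    rw [← hx, ← hy, ← map_mul, hsR, Ideal.Quotient.eq] at h3
    have hyc : IsCoprime (Ideal.span {y}) 𝔣 := coprime_of_isUnit (by rw [hy]; exact v.isUnit)
    have hsy : IsCoprime (Ideal.span {s y}) 𝔣 := coprime_of_isUnit (by
      rw [← hsR, hy]; exact v.isUnit.map sR)
    have h4 := prim_congr (fun x => tpos x) (hS ψ hψ) htop h3 hsy
    rw [hinv ψ hψ, ← Ideal.span_singleton_mul_span_singleton, map_mul] at h4
    have hy0 : y ≠ 0 := ne_zero_of_cop htop hyc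
    have h5 : ψ (Ideal.span {y}) ≠ 0 := by
      rw [(hS ψ hψ).supp _ (by rw [Ne, Ideal.span_singleton_eq_bot]; exact hy0)]
      exact hyc
    exact mul_right_cancel₀ h5 (by rw [h4, one_mul]))
  have hTc : hTf.toFinset.card = Nat.card g.range := by
    rw [← Set.ncard_eq_toFinset_card _ hTf]
    rfl
  rw [hTc] at hcard
  have hA : Nat.card g.ker * Nat.card g.range = Nat.card (𝓞 K ⧸ 𝔣)ˣ := by
    rw [← Subgroup.index_ker]
    exact g.ker.card_mul_index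
  have hr0 : 0 < Nat.card g.range := Nat.card_pos
  have hS1 : S.card ≤ Nat.card (ClassGroup (𝓞 K)) * Nat.card g.ker := by
    rw [← hA, ← mul_assoc] at hcard
    exact Nat.le_of_mul_le_mul_right hcard hr0
  -- the additive kernel
  set D : (𝓞 K ⧸ 𝔣) →+ (𝓞 K ⧸ 𝔣) := (sR : (𝓞 K ⧸ 𝔣) →+ (𝓞 K ⧸ 𝔣)) - AddMonoidHom.id _ with hD
  have hDv : ∀ v, D v = sR v - v := by
    intro v
    rw [hD, AddMonoidHom.sub_apply, AddMonoidHom.id_apply]
    rfl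
  have hker : Nat.card g.ker ≤ Nat.card D.ker := by
    refine Nat.card_le_card_of_injective
      (fun u : g.ker => (⟨((u : (𝓞 K ⧸ 𝔣)ˣ) : 𝓞 K ⧸ 𝔣), ?_⟩ : D.ker)) ?_
    · rw [AddMonoidHom.mem_ker, hDv]
      have h3 := hgv (u : (𝓞 K ⧸ 𝔣)ˣ)
      rw [MonoidHom.mem_ker.mp u.2, Units.val_one, one_mul] at h3
      rw [← h3, sub_self]
    · intro u v huv
      have h3 := congrArg (fun z : D.ker => (z : 𝓞 K ⧸ 𝔣)) huv
      exact Subtype.ext (Units.ext h3)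
  have hB : Nat.card D.ker * Nat.card D.range = Ideal.absNorm 𝔣 := by
    rw [← AddSubgroup.index_ker, D.ker.card_mul_index]
    rfl
  obtain ⟨m, hm⟩ : ∃ m, m = addOrderOf (Ideal.Quotient.mk 𝔣 d) := ⟨_, rfl⟩
  have hm0 : 0 < m := by rw [hm]; exact addOrderOf_pos _
  have hmd : (m : 𝓞 K) * d ∈ 𝔣 := by
    rw [← Ideal.Quotient.eq_zero_iff_mem, ← nsmul_eq_mul, map_nsmul, hm]
    exact addOrderOf_nsmul_eq_zero _
  have hrange : m ≤ Nat.card D.range := by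
    rw [hm, ← Nat.card_zmultiples]
    refine Nat.card_le_card_of_injective
      (AddSubgroup.inclusion (show AddSubgroup.zmultiples (Ideal.Quotient.mk 𝔣 d) ≤ D.range from ?_))
      (AddSubgroup.inclusion_injective _)
    rw [AddSubgroup.zmultiples_le]
    refine ⟨Ideal.Quotient.mk 𝔣 x₀, ?_⟩
    rw [hDv, hsR, hd, map_sub]
  have hob := order_bound h2 hd0 hm0 hmd
  -- real estimates
  set k : ℝ := (Nat.card D.ker : ℝ) with hk
  have hk0 : 0 ≤ k := by positivity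
  have hmr : (1:ℝ) ≤ m := by exact_mod_cast hm0
  have e1 : k * m ≤ nm 𝔣 := by
    unfold nm
    have : Nat.card D.ker * m ≤ Ideal.absNorm 𝔣 := by
      rw [← hB]
      exact Nat.mul_le_mul_left _ hrange
    rw [hk]
    exact_mod_cast this
  have e2 : nm 𝔣 ≤ (m : ℝ) ^ 2 * (Ideal.absNorm (Ideal.span {d}) : ℝ) := by
    unfold nm
    exact_mod_cast hob
  have e3 : k ≤ Real.sqrt (Ideal.absNorm (Ideal.span {d}) : ℝ) * nm 𝔣 ^ (1 / 2 : ℝ) := by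
    rw [← Real.sqrt_eq_rpow, ← Real.sqrt_mul (by positivity)]
    apply Real.le_sqrt_of_sq_le
    have h3 : (k * m) ^ 2 ≤ nm 𝔣 ^ 2 := pow_le_pow_left₀ (by positivity) e1 2
    have h4 : k ^ 2 * nm 𝔣 ≤ k ^ 2 * ((m : ℝ) ^ 2 * (Ideal.absNorm (Ideal.span {d}) : ℝ)) :=
      mul_le_mul_of_nonneg_left e2 (by positivity)
    have h5 : k ^ 2 * nm 𝔣 ≤ (Ideal.absNorm (Ideal.span {d}) : ℝ) * nm 𝔣 * nm 𝔣 := by
      have h6 : (k * m) ^ 2 * (Ideal.absNorm (Ideal.span {d}) : ℝ) ≤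
          nm 𝔣 ^ 2 * (Ideal.absNorm (Ideal.span {d}) : ℝ) :=
        mul_le_mul_of_nonneg_right h3 (by positivity)
      nlinarith
    exact le_of_mul_le_mul_right h5 hnm0
  calc (S.card : ℝ) ≤ ((Nat.card (ClassGroup (𝓞 K)) * Nat.card D.ker : ℕ) : ℝ) := by
        exact_mod_cast hS1.trans (Nat.mul_le_mul_left _ hker)
    _ = Nat.card (ClassGroup (𝓞 K)) * k := by push_cast; rfl
    _ ≤ Nat.card (ClassGroup (𝓞 K)) *
        (Real.sqrt (Ideal.absNorm (Ideal.span {d}) : ℝ) * nm 𝔣 ^ (1 / 2 : ℝ)) :=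
        mul_le_mul_of_nonneg_left e3 (by positivity)
    _ = _ := by ring

end Pool.Agent.Y665.NV
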