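import Pool.Agent.Y773.IQ.Cl
import Pool.Agent.Y665.NV.Inv

/-! # Characters of residue classes trivial on a set -/

set_option autoImplicit false

open NumberField

namespace Pool.Agent.Y665.NV

open Pool.Agent.Y773.NV
open Pool.Agent.Y773.G (IsPrimChar)
open Pool.Agent.Y773.IQ (prim_congr D0 D0_sub D0_card D1_card)
open Pool.Agent.Y767 (Mq Mq_ne_bot isUnit_mk coprime_of_isUnit card_dual finite_dual)

section

variable {K : Type} [Field K] [NumberField K]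

/-- the character of the monoid of the ideals prime to `𝔮` -/
noncomputable def rM {𝔮 : Ideal (𝓞 K)} (ψ : Ideal (𝓞 K) →*₀ ℂ)
    (h : ∀ x : Mq 𝔮, ψ (x : Ideal (𝓞 K)) ≠ 0) : Mq 𝔮 →* ℂˣ where
  toFun x := Units.mk0 (ψ (x : Ideal (𝓞 K))) (h x)
  map_one' := by
    ext
    rw [Units.val_mk0, Submonoid.coe_one, map_one, Units.val_one]
  map_mul' x y := by
    ext
    rw [Units.val_mk0, Units.val_mul, Units.val_mk0, Units.val_mk0, Submonoid.coe_mul, map_mul]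

lemma ne_zero_M {𝔣 : Ideal (𝓞 K)} (htop : 𝔣 ≠ ⊤) {ψ : Ideal (𝓞 K) →*₀ ℂ}
    (h : IsPrimChar K 𝔣 ψ) (x : Mq 𝔣) : ψ (x : Ideal (𝓞 K)) ≠ 0 :=
  (h.supp _ (Mq_ne_bot htop x)).mpr x.2

/-- a representative -/
noncomputable def rp {𝔣 : Ideal (𝓞 K)} (u : (𝓞 K ⧸ 𝔣)ˣ) : 𝓞 K :=
  (Ideal.Quotient.mk_surjective (u : 𝓞 K ⧸ 𝔣)).choose

lemma rp_spec {𝔣 : Ideal (𝓞 K)} (u : (𝓞 K ⧸ 𝔣)ˣ) : Ideal.Quotient.mk 𝔣 (rp u) = u :=
  (Ideal.Quotient.mk_surjective (u : 𝓞 K ⧸ 𝔣)).choose_spec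

lemma rp_cop {𝔣 : Ideal (𝓞 K)} (u : (𝓞 K ⧸ 𝔣)ˣ) : IsCoprime (Ideal.span {rp u}) 𝔣 :=
  coprime_of_isUnit (by rw [rp_spec]; exact u.isUnit)

variable [IsTotallyComplex K]

lemma rp_congr {𝔣 : Ideal (𝓞 K)} (htop : 𝔣 ≠ ⊤) {ψ : Ideal (𝓞 K) →*₀ ℂ} (h : IsPrimChar K 𝔣 ψ)
    {u : (𝓞 K ⧸ 𝔣)ˣ} {x : 𝓞 K} (hx : Ideal.Quotient.mk 𝔣 x = u) :
    ψ (Ideal.span {x}) = ψ (Ideal.span {rp u}) := by
  refine prim_congr (fun x => tpos x) h htop ?_ (rp_cop u)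
  rw [← Ideal.Quotient.eq, hx, rp_spec]

/-- the character of the residue classes -/
noncomputable def chiA {𝔣 : Ideal (𝓞 K)} (htop : 𝔣 ≠ ⊤) (ψ : Ideal (𝓞 K) →*₀ ℂ)
    (h : IsPrimChar K 𝔣 ψ) : (𝓞 K ⧸ 𝔣)ˣ →* ℂˣ :=
  MonoidHom.toHomUnits
    { toFun := fun u => ψ (Ideal.span {rp u})
      map_one' := by
        rw [← rp_congr htop h (u := 1) (x := 1) (by rw [map_one, Units.val_one]),
          Ideal.span_singleton_one, ← Ideal.one_eq_top, map_one]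
      map_mul' := fun u v => by
        rw [← rp_congr htop h (u := u * v) (x := rp u * rp v) (by
          rw [map_mul, rp_spec, rp_spec, Units.val_mul]),
          ← Ideal.span_singleton_mul_span_singleton, map_mul] }

lemma chiA_coe {𝔣 : Ideal (𝓞 K)} (htop : 𝔣 ≠ ⊤) {ψ : Ideal (𝓞 K) →*₀ ℂ} (h : IsPrimChar K 𝔣 ψ)
    {u : (𝓞 K ⧸ 𝔣)ˣ} {x : 𝓞 K} (hx : Ideal.Quotient.mk 𝔣 x = u) :
    ((chiA htop ψ h u : ℂˣ) : ℂ) = ψ (Ideal.span {x}) := by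
  rw [rp_congr htop h hx]
  rfl

end

theorem t_rst : St_RST := by
  classical
  intro K _ _ _ 𝔣 S T hbot htop hS hT
  have hfin : Finite (𝓞 K ⧸ 𝔣) := Ideal.finiteQuotientOfFreeOfNeBot 𝔣 hbot
  have hfu : Finite (𝓞 K ⧸ 𝔣)ˣ := inferInstance
  set c : (Ideal (𝓞 K) →*₀ ℂ) → ((𝓞 K ⧸ 𝔣)ˣ →* ℂˣ) := fun ψ =>
    if h : IsPrimChar K 𝔣 ψ then chiA htop ψ h else 1 with hc
  have hcv : ∀ ψ ∈ S, ∀ (u : (𝓞 K ⧸ 𝔣)ˣ) (x : 𝓞 K), Ideal.Quotient.mk 𝔣 x = u →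
      ((c ψ u : ℂˣ) : ℂ) = ψ (Ideal.span {x}) := by
    intro ψ hψ u x hx
    rw [hc]
    simp only
    rw [dif_pos (hS ψ hψ)]
    exact chiA_coe htop (hS ψ hψ) hx
  -- the number of the characters of the residue classes
  have h1 : (S.image c).card * T.card ≤ Nat.card (𝓞 K ⧸ 𝔣)ˣ := by
    set H : Subgroup (𝓞 K ⧸ 𝔣)ˣ := Subgroup.closure (T : Set (𝓞 K ⧸ 𝔣)ˣ) with hH
    have htriv : ∀ χ ∈ S.image c, ∀ u ∈ H, χ u = 1 := by
      intro χ hχ u hu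
      obtain ⟨ψ, hψ, rfl⟩ := Finset.mem_image.mp hχ
      have hle : H ≤ (c ψ).ker := by
        rw [hH, Subgroup.closure_le]
        intro v hv
        rw [SetLike.mem_coe, MonoidHom.mem_ker]
        ext
        rw [hcv ψ hψ v (rp v) (rp_spec v), Units.val_one]
        exact hT ψ hψ v hv (rp v) (rp_spec v)
      exact MonoidHom.mem_ker.mp (hle hu)
    have hfd := finite_dual ((𝓞 K ⧸ 𝔣)ˣ ⧸ H)
    have hX : (S.image c).card ≤ Nat.card ((𝓞 K ⧸ 𝔣)ˣ ⧸ H) := by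
      rw [← card_dual ((𝓞 K ⧸ 𝔣)ˣ ⧸ H), ← Fintype.card_coe, ← Nat.card_eq_fintype_card]
      refine Nat.card_le_card_of_injective (fun χ : (S.image c : Finset _) =>
        QuotientGroup.lift H χ.1 (htriv χ.1 χ.2)) ?_
      intro χ χ' h
      apply Subtype.ext
      ext u
      have h2 : χ.1 u = χ'.1 u := DFunLike.congr_fun h (QuotientGroup.mk u)
      rw [h2]
    have hTH : T.card ≤ Nat.card H := by
      rw [← Fintype.card_coe, ← Nat.card_eq_fintype_card]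
      refine Nat.card_le_card_of_injective
        (fun u : T => (⟨u.1, Subgroup.subset_closure u.2⟩ : H)) ?_
      intro u v h
      exact Subtype.ext (congrArg (fun z : H => (z : (𝓞 K ⧸ 𝔣)ˣ)) h)
    rw [Subgroup.card_eq_card_quotient_mul_card_subgroup H]
    exact Nat.mul_le_mul hX hTH
  -- the fibres
  have h2 : S.card ≤ Nat.card (ClassGroup (𝓞 K)) * (S.image c).card := by
    refine Finset.card_le_mul_card_image S _ ?_
    intro b hb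
    obtain ⟨ψ₀, hψ₀, rfl⟩ := Finset.mem_image.mp hb
    have hD0 : (D0 𝔣).Finite := (D1_card hbot htop).1.subset (D0_sub htop)
    refine le_trans ?_ (D0_card htop (fun x => tpos x))
    rw [← Set.ncard_coe_finset]
    refine Set.ncard_le_ncard_of_injOn (fun ψ => if h : ∀ x : Mq 𝔣, ψ (x : Ideal (𝓞 K)) ≠ 0 then
      rM ψ h / rM ψ₀ (ne_zero_M htop (hS ψ₀ hψ₀)) else 1) ?_ ?_ hD0
    · intro ψ hψ
      rw [Finset.mem_coe, Finset.mem_filter] at hψ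
      have hne := fun x : Mq 𝔣 => ne_zero_M htop (hS ψ hψ.1) x
      intro x hx
      rw [dif_pos hne, MonoidHom.div_apply]
      have hu : Ideal.Quotient.mk 𝔣 x = ((isUnit_mk hx).unit : 𝓞 K ⧸ 𝔣) :=
        (IsUnit.unit_spec _).symm
      have e1 := hcv ψ hψ.1 _ x hu
      have e2 := hcv ψ₀ hψ₀ _ x hu
      rw [hψ.2] at e1
      rw [div_eq_one]
      apply Units.ext
      change ψ (Ideal.span {x}) = ψ₀ (Ideal.span {x})
      rw [← e1, ← e2]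
    · intro ψ hψ ψ' hψ' h
      rw [Finset.mem_coe, Finset.mem_filter] at hψ hψ'
      have hne := fun x : Mq 𝔣 => ne_zero_M htop (hS ψ hψ.1) x
      have hne' := fun x : Mq 𝔣 => ne_zero_M htop (hS ψ' hψ'.1) x
      simp only at h
      rw [dif_pos hne, dif_pos hne'] at h
      ext 𝔞
      by_cases h0 : 𝔞 = ⊥
      · rw [h0, ← Ideal.zero_eq_bot, map_zero, map_zero]
      by_cases hco : IsCoprime 𝔞 𝔣
      · have h3 := DFunLike.congr_fun h ⟨𝔞, hco⟩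
        rw [MonoidHom.div_apply, MonoidHom.div_apply, div_left_inj] at h3
        exact congrArg (fun z : ℂˣ => (z : ℂ)) h3
      · have e1 : ψ 𝔞 = 0 := by
          by_contra h4
          exact hco (((hS ψ hψ.1).supp 𝔞 h0).mp h4)
        have e2 : ψ' 𝔞 = 0 := by
          by_contra h4
          exact hco (((hS ψ' hψ'.1).supp 𝔞 h0).mp h4)
        rw [e1, e2]
  calc S.card * T.card ≤ Nat.card (ClassGroup (𝓞 K)) * (S.image c).card * T.card :=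
        Nat.mul_le_mul_right _ h2
    _ = Nat.card (ClassGroup (𝓞 K)) * ((S.image c).card * T.card) := by ring
    _ ≤ _ := Nat.mul_le_mul_left _ h1

end Pool.Agent.Y665.NV
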